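import Pool.Agent.Q248.KN.Basic

/-!
# Signed zero-3-sum-free sets in cyclic groups
-/

namespace Pool.Agent.Results.MP_25b479_co.Equality

open Finset
open scoped Pointwise
open Pool.Agent.Q248.KN Pool.Agent.Helper591.Kneser

/-- The `h`-fold signed sumset of a finite set `A`: all `∑ λ_a a` with `∑ |λ_a| = h`. -/
def signed {n : ℕ} (h : ℕ) (A : Finset (ZMod n)) : Set (ZMod n) :=
  {x | ∃ l : ZMod n → ℤ, ∑ a ∈ A, (l a).natAbs = h ∧ x = ∑ a ∈ A, (l a) • a}

/-- `τ_±(ℤ_n, 3)`: the maximal size of a subset `A` with `0 ∉ 3_±A`. -/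
noncomputable def tau3 (n : ℕ) : ℕ :=
  sSup {k : ℕ | ∃ A : Finset (ZMod n), (0 : ZMod n) ∉ signed 3 A ∧ A.card = k}

open Classical in
/-- `v(n)`. -/
noncomputable def v (n : ℕ) : ℚ :=
  if h : ∃ p : ℕ, p.Prime ∧ p % 3 = 2 ∧ p ∣ n then
    (1 + 1 / (Nat.find h : ℚ)) * (n / 3)
  else (((n - 1) / 3 : ℕ) : ℚ)

/-- `0 ∉ 3_±A` in terms of the equations `a + b + c = 0` and `a + b = c`. -/
theorem zero_notMem_iff {n : ℕ} (A : Finset (ZMod n)) : (0 : ZMod n) ∉ signed 3 A ↔
    ∀ a ∈ A, ∀ b ∈ A, ∀ c ∈ A, a + b + c ≠ 0 ∧ a + b ≠ c := by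
  classical
  constructor
  · intro h a ha b hb c hc
    -- general: signs
    have key : ∀ s t u : ℤ, s.natAbs = 1 → t.natAbs = 1 → u.natAbs = 1 →
        (a = b → s = t) → (a = c → s = u) → (b = c → t = u) → s • a + t • b + u • c ≠ 0 := by
      intro s t u hs ht hu hab hac hbc he
      apply h
      refine ⟨fun x => (if x = a then s else 0) + (if x = b then t else 0) +
        (if x = c then u else 0), ?_, ?_⟩
      · have : ∀ x, ((if x = a then s else 0) + (if x = b then t else 0) +
            (if x = c then u else 0) : ℤ).natAbs =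
            (if x = a then 1 else 0) + (if x = b then 1 else 0) + (if x = c then 1 else 0) := by
          intro x
          by_cases hxa : x = a <;> by_cases hxb : x = b <;> by_cases hxc : x = c
          · have h1 := hab (hxa.symm.trans hxb)
            have h2 := hac (hxa.symm.trans hxc)
            simp only [if_pos hxa, if_pos hxb, if_pos hxc]
            omega
          · have h1 := hab (hxa.symm.trans hxb)
            simp only [if_pos hxa, if_pos hxb, if_neg hxc]
            omega
          · have h2 := hac (hxa.symm.trans hxc)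
            simp only [if_pos hxa, if_neg hxb, if_pos hxc]
            omega
          · simp only [if_pos hxa, if_neg hxb, if_neg hxc]
            omega
          · have h2 := hbc (hxb.symm.trans hxc)
            simp only [if_neg hxa, if_pos hxb, if_pos hxc]
            omega
          · simp only [if_neg hxa, if_pos hxb, if_neg hxc]
            omega
          · simp only [if_neg hxa, if_neg hxb, if_pos hxc]
            omega
          · simp only [if_neg hxa, if_neg hxb, if_neg hxc]
            omega
        rw [sum_congr rfl (fun x _ => this x), sum_add_distrib, sum_add_distrib,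
          sum_ite_eq', sum_ite_eq', sum_ite_eq', if_pos ha, if_pos hb, if_pos hc]
      · rw [← he]
        simp only [add_smul, ite_smul, zero_smul]
        rw [sum_add_distrib, sum_add_distrib, sum_ite_eq', sum_ite_eq', sum_ite_eq', if_pos ha,
          if_pos hb, if_pos hc]
    refine ⟨?_, ?_⟩
    · intro he
      apply key 1 1 1 rfl rfl rfl (fun _ => rfl) (fun _ => rfl) (fun _ => rfl)
      rw [one_zsmul, one_zsmul, one_zsmul]; exact he
    · intro he
      -- a + b - c = 0; if a = c then b = 0, and if b = c then a = 0
      by_cases hac : a = c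
      · have hb0 : b = 0 := by
          rw [hac] at he
          exact left_eq_add.1 he.symm
        -- 0 ∈ A: then 0 + 0 + 0 = 0
        apply h
        refine ⟨fun x => if x = b then 3 else 0, ?_, ?_⟩
        · have : ∀ x : ZMod n, ((if x = b then 3 else 0 : ℤ)).natAbs = if x = b then 3 else 0 := by
            intro x; split_ifs <;> rfl
          rw [sum_congr rfl (fun x _ => this x), sum_ite_eq', if_pos hb]
        · simp only [ite_smul, zero_smul]
          rw [sum_ite_eq', if_pos hb, hb0, smul_zero]
      · by_cases hbc : b = c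
        · have ha0 : a = 0 := by
            rw [hbc] at he
            exact right_eq_add.1 he.symm
          apply h
          refine ⟨fun x => if x = a then 3 else 0, ?_, ?_⟩
          · have : ∀ x : ZMod n, ((if x = a then 3 else 0 : ℤ)).natAbs = if x = a then 3 else 0 := by
              intro x; split_ifs <;> rfl
            rw [sum_congr rfl (fun x _ => this x), sum_ite_eq', if_pos ha]
          · simp only [ite_smul, zero_smul]
            rw [sum_ite_eq', if_pos ha, ha0, smul_zero]
        · apply key 1 1 (-1) rfl rfl rfl (fun _ => rfl) (fun h => absurd h hac)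
            (fun h => absurd h hbc)
          rw [one_zsmul, one_zsmul, neg_one_zsmul, he, add_neg_cancel]
  · rintro h ⟨l, hl, hx⟩
    -- decompose the coefficients
    have hsup : ∀ a ∈ A, (l a).natAbs ≤ 3 := fun a ha => by
      rw [← hl]; exact single_le_sum (f := fun a => (l a).natAbs) (fun _ _ => Nat.zero_le _) ha
    -- peel off one element at a time
    have peel : ∀ (k : ℕ) (l : ZMod n → ℤ), ∑ a ∈ A, (l a).natAbs = k + 1 →
        ∃ b ∈ A, ∃ s : ℤ, (s = 1 ∨ s = -1) ∧ ∃ l' : ZMod n → ℤ, ∑ a ∈ A, (l' a).natAbs = k ∧
          ∑ a ∈ A, (l a) • a = ∑ a ∈ A, (l' a) • a + s • b := by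
      intro k l hl
      obtain ⟨b, hb, hb0⟩ : ∃ b ∈ A, l b ≠ 0 := by
        by_contra hcon
        push Not at hcon
        rw [sum_congr rfl (fun a ha => by rw [hcon a ha, Int.natAbs_zero])] at hl
        simp at hl
      set s : ℤ := if 0 < l b then 1 else -1 with hs
      refine ⟨b, hb, s, by rw [hs]; split_ifs <;> simp, fun x => l x - if x = b then s else 0, ?_, ?_⟩
      · have h1 : ∑ a ∈ A, (l a).natAbs = ∑ a ∈ A, ((l a - if a = b then s else 0).natAbs +
            if a = b then 1 else 0) := by
          apply sum_congr rfl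
          intro a _
          by_cases hab : a = b
          · rw [if_pos hab, if_pos hab, hab, hs]
            split_ifs with h0
            · omega
            · omega
          · rw [if_neg hab, if_neg hab, sub_zero, add_zero]
        rw [sum_add_distrib, sum_ite_eq', if_pos hb] at h1
        show ∑ a ∈ A, (l a - if a = b then s else 0).natAbs = k
        omega
      · have h1 : ∑ a ∈ A, (l a) • a = ∑ a ∈ A, ((l a - if a = b then s else 0) • a +
            (if a = b then s • a else 0)) := by
          apply sum_congr rfl
          intro a _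
          by_cases hab : a = b
          · rw [if_pos hab, if_pos hab, sub_smul, sub_add_cancel]
          · rw [if_neg hab, if_neg hab, sub_zero, add_zero]
        rw [h1, sum_add_distrib, sum_ite_eq', if_pos hb]
    obtain ⟨c, hc, u, hu, l1, hl1, e1⟩ := peel 2 l hl
    obtain ⟨b, hb, t, ht, l2, hl2, e2⟩ := peel 1 l1 hl1
    obtain ⟨a, ha, s, hs, l3, hl3, e3⟩ := peel 0 l2 hl2
    have e4 : ∑ a ∈ A, (l3 a) • a = 0 := by
      apply sum_eq_zero
      intro x hx
      have := (sum_eq_zero_iff.1 hl3) x hx
      rw [Int.natAbs_eq_zero] at this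
      rw [this, zero_smul]
    rw [e1, e2, e3, e4, zero_add] at hx
    have hc3 := h a ha b hb c hc
    have h4 := h a ha c hc b hb
    have h5 := h b hb c hc a ha
    rcases hs with rfl | rfl <;> rcases ht with rfl | rfl <;> rcases hu with rfl | rfl <;>
      simp only [one_zsmul, neg_one_zsmul] at hx
    · exact hc3.1 hx.symm
    · exact hc3.2 (by linear_combination -hx)
    · exact h4.2 (by linear_combination -hx)
    · exact h5.2 (by linear_combination hx)
    · exact h5.2 (by linear_combination -hx)
    · exact h4.2 (by linear_combination hx)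
    · exact hc3.2 (by linear_combination hx)
    · exact hc3.1 (by linear_combination hx)

/-- The upper bound. -/
theorem upper {n : ℕ} [NeZero n] (A : Finset (ZMod n))
    (h : ∀ a ∈ A, ∀ b ∈ A, ∀ c ∈ A, a + b + c ≠ 0 ∧ a + b ≠ c) :
    A = ∅ ∨ ∃ d e B : ℕ, d * e = n ∧ A.card ≤ B ∧ B ≤ (d + 1) / 3 * e ∧ (Odd n → Even B) := by
  classical
  rcases A.eq_empty_or_nonempty with rfl | hA
  · left; rfl
  right
  set B := A ∪ (-A) with hB
  have hBn : B.Nonempty := hA.mono subset_union_left
  have hBsymm : ∀ x ∈ B, -x ∈ B := by
    intro x hx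
    rw [hB, mem_union, Finset.mem_neg'] at hx ⊢
    rw [neg_neg]
    exact hx.symm
  have hBfree : ∀ x ∈ B, ∀ y ∈ B, x + y ∉ B := by
    intro x hx y hy hxy
    rw [hB, mem_union, Finset.mem_neg'] at hx hy hxy
    rcases hx with hx | hx <;> rcases hy with hy | hy <;> rcases hxy with hz | hz
    · exact (h x hx y hy _ hz).2 rfl
    · exact (h x hx y hy _ hz).1 (by ring)
    · exact (h _ hz _ hy x hx).2 (by ring)
    · exact (h x hx _ hz _ hy).2 (by ring)
    · exact (h _ hx _ hz y hy).2 (by ring)
    · exact (h y hy _ hz _ hx).2 (by ring)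
    · exact (h _ hx _ hy _ hz).1 (by ring)
    · exact (h _ hx _ hy _ hz).2 (by ring)
  have h0 : (0 : ZMod n) ∉ B := fun h0 => hBfree 0 h0 0 h0 (by rw [add_zero]; exact h0)
  set D := B + B with hD
  set H := stab D with hH
  set e := (els H).card with he
  have he0 : 0 < e := card_els_pos H
  have hkn := kneser_full hBn hBn
  rw [← hD, ← hH] at hkn
  have hDB : Disjoint D B := by
    rw [Finset.disjoint_left]
    intro x hx hxB
    rw [hD, Finset.mem_add] at hx
    obtain ⟨a, ha, b, hb, rfl⟩ := hx
    exact hBfree a ha b hb hxB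
  have hDB' := disjoint_add_els (H := H) le_rfl hDB
  have hn : Fintype.card (ZMod n) = n := ZMod.card n
  have htot : D.card + (B + els H).card ≤ n := by
    rw [← Finset.card_union_of_disjoint hDB']
    exact (Finset.card_le_univ _).trans hn.le
  obtain ⟨d, hd⟩ := card_els_dvd H
  rw [hn, ← he] at hd
  obtain ⟨k, hk⟩ := card_dvd_of_le_stab (le_stab_add_els H B)
  rw [← he] at hk
  refine ⟨d, e, B.card, by rw [hd, mul_comm], card_le_card subset_union_left, ?_, ?_⟩
  · have h6 : 3 * (e * k) ≤ e * d + e := by
      rw [← hk, ← hd]; omega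
    have h7 : 3 * k ≤ d + 1 := by
      have : e * (3 * k) ≤ e * (d + 1) := by
        calc e * (3 * k) = 3 * (e * k) := by ring
          _ ≤ e * d + e := h6
          _ = e * (d + 1) := by ring
      exact Nat.le_of_mul_le_mul_left this he0
    calc B.card ≤ (B + els H).card := card_le_card (subset_add_els H B)
      _ = k * e := by rw [hk, mul_comm]
      _ ≤ (d + 1) / 3 * e := Nat.mul_le_mul_right _ (by omega)
  · intro hodd
    apply even_card_of_symm _ hBsymm h0
    rw [hn]; exact hodd

/-- The intervals of cosets. -/
theorem lower {n : ℕ} (hn : 0 < n) (d e : ℕ) (hde : d * e = n) (r w : ℕ) (h1 : w + 1 ≤ 2 * r)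
    (h2 : 2 * w + 1 ≤ r + d) (h3 : d + 1 ≤ 3 * r) (h4 : 3 * w + 1 ≤ 2 * d) (hrw : r ≤ w + 1) :
    ∃ A : Finset (ZMod n), (0 : ZMod n) ∉ signed 3 A ∧ A.card = (w + 1 - r) * e := by
  classical
  haveI : NeZero n := ⟨hn.ne'⟩
  have hd0 : 0 < d := Nat.pos_of_ne_zero (by rintro rfl; omega)
  set A : Finset (ZMod n) := univ.filter (fun x => r ≤ x.val % d ∧ x.val % d ≤ w) with hA
  have hdn : d ∣ n := ⟨e, hde.symm⟩
  have hadd : ∀ a b : ZMod n, (a + b).val % d = (a.val % d + b.val % d) % d := by
    intro a b
    rw [ZMod.val_add, Nat.mod_mod_of_dvd _ hdn, Nat.add_mod]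
  have hwd : w < d := by omega
  refine ⟨A, ?_, ?_⟩
  · rw [zero_notMem_iff]
    intro a ha b hb c hc
    rw [hA, mem_filter] at ha hb hc
    obtain ⟨-, ha1, ha2⟩ := ha
    obtain ⟨-, hb1, hb2⟩ := hb
    obtain ⟨-, hc1, hc2⟩ := hc
    have h5 := hadd a b
    constructor
    · intro he
      have h6 := hadd (a + b) c
      rw [he, ZMod.val_zero, Nat.zero_mod, h5] at h6
      have h7 : ((a.val % d + b.val % d) % d + c.val % d) % d =
          (a.val % d + b.val % d + c.val % d) % d := by
        rw [Nat.add_mod, Nat.mod_mod, ← Nat.add_mod]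
      rw [h7] at h6
      -- the sum lies strictly between d and 2d
      have h8 : (a.val % d + b.val % d + c.val % d) % d = a.val % d + b.val % d + c.val % d - d := by
        rw [Nat.mod_eq_sub_mod (by omega), Nat.mod_eq_of_lt (by omega)]
      omega
    · intro he
      rw [he] at h5
      by_cases hlt : a.val % d + b.val % d < d
      · rw [Nat.mod_eq_of_lt hlt] at h5
        omega
      · have h6 : (a.val % d + b.val % d) % d = a.val % d + b.val % d - d := by
          rw [Nat.mod_eq_sub_mod (by omega), Nat.mod_eq_of_lt (by omega)]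
        rw [h6] at h5
        omega
  · have h2 : A.card = ((range (w + 1 - r)) ×ˢ (range e)).card := by
      apply Finset.card_bij' (fun x _ => (x.val % d - r, x.val / d))
        (fun p _ => ((p.1 + r + d * p.2 : ℕ) : ZMod n))
      · intro x hx
        rw [hA, mem_filter] at hx
        rw [mem_product, mem_range, mem_range]
        refine ⟨by simp only; omega, ?_⟩
        rw [Nat.div_lt_iff_lt_mul hd0, mul_comm, hde]
        exact ZMod.val_lt x
      · rintro ⟨i, j⟩ hp
        rw [mem_product, mem_range, mem_range] at hp
        have hp1 : i < w + 1 - r := hp.1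
        have hp2 : j < e := hp.2
        have hlt : i + r + d * j < n := by
          have : d * (j + 1) ≤ d * e := Nat.mul_le_mul_left _ hp2
          rw [Nat.mul_add, mul_one, hde] at this
          omega
        rw [hA, mem_filter]
        refine ⟨mem_univ _, ?_⟩
        rw [ZMod.val_natCast_of_lt hlt, Nat.add_mul_mod_self_left,
          Nat.mod_eq_of_lt (show i + r < d by omega)]
        omega
      · intro x hx
        rw [hA, mem_filter] at hx
        simp only
        have h3 : x.val % d - r + r + d * (x.val / d) = x.val := by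
          rw [Nat.sub_add_cancel hx.2.1]
          exact Nat.mod_add_div _ _
        rw [h3, ZMod.natCast_zmod_val]
      · rintro ⟨i, j⟩ hp
        rw [mem_product, mem_range, mem_range] at hp
        have hp1 : i < w + 1 - r := hp.1
        have hp2 : j < e := hp.2
        have hlt : i + r + d * j < n := by
          have : d * (j + 1) ≤ d * e := Nat.mul_le_mul_left _ hp2
          rw [Nat.mul_add, mul_one, hde] at this
          omega
        simp only
        rw [ZMod.val_natCast_of_lt hlt, Nat.add_mul_mod_self_left,
          Nat.mod_eq_of_lt (show i + r < d by omega), Nat.add_mul_div_left _ _ hd0,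
          Nat.div_eq_of_lt (show i + r < d by omega)]
        ext <;> simp
    rw [h2, card_product, card_range, card_range]

/-- every number that is `2` modulo `3` has a prime factor that is `2` modulo `3` -/
theorem exists_prime_factor {d : ℕ} (hd : d % 3 = 2) : ∃ p : ℕ, p.Prime ∧ p % 3 = 2 ∧ p ∣ d := by
  by_contra hcon
  push Not at hcon
  have h0 : d ≠ 0 := by rintro rfl; omega
  have key : ∀ l : List ℕ, (∀ p ∈ l, p % 3 ≠ 2) → l.prod % 3 ≠ 2 := by
    intro l
    induction l with
    | nil => intro _; decide
    | cons a l ih =>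
      intro h
      have h1 := ih (fun p hp => h p (List.mem_cons_of_mem _ hp))
      have h2 := h a List.mem_cons_self
      rw [List.prod_cons, Nat.mul_mod]
      have h3 : a % 3 = 0 ∨ a % 3 = 1 := by omega
      have h4 : l.prod % 3 = 0 ∨ l.prod % 3 = 1 := by omega
      rcases h3 with h3 | h3 <;> rcases h4 with h4 | h4 <;> rw [h3, h4] <;> decide
  have h1 := key d.primeFactorsList (fun p hp h =>
    hcon p (Nat.prime_of_mem_primeFactorsList hp) h (Nat.dvd_of_mem_primeFactorsList hp))
  rw [Nat.prod_primeFactorsList h0] at h1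
  exact h1 hd

/-- For every positive integer `n`, `τ_±(ℤ_n, 3) = v(n)`. -/
theorem result (n : ℕ) (hn : 0 < n) : (tau3 n : ℚ) = v n := by
  classical
  haveI : NeZero n := ⟨hn.ne'⟩
  set S : Set ℕ := {k : ℕ | ∃ A : Finset (ZMod n), (0 : ZMod n) ∉ signed 3 A ∧ A.card = k} with hS
  have hbdd : BddAbove S := by
    refine ⟨n, ?_⟩
    rintro k ⟨A, _, rfl⟩
    have := Finset.card_le_univ A
    rwa [ZMod.card] at this
  have hne : S.Nonempty := by
    refine ⟨0, ∅, ?_, card_empty⟩
    rw [zero_notMem_iff]
    intro a ha
    exact absurd ha (notMem_empty _)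
  have hlow : ∀ k, (∃ A : Finset (ZMod n), (0 : ZMod n) ∉ signed 3 A ∧ A.card = k) →
      k ≤ tau3 n := by
    intro k hk
    exact le_csSup hbdd hk
  have hup : tau3 n = 0 ∨ ∃ d e B : ℕ, d * e = n ∧ tau3 n ≤ B ∧ B ≤ (d + 1) / 3 * e ∧
      (Odd n → Even B) := by
    obtain ⟨A, hA, hc⟩ := Nat.sSup_mem hne hbdd
    have hc' : A.card = tau3 n := hc
    rw [← hc']
    rcases upper A ((zero_notMem_iff A).1 hA) with h | h
    · left; rw [h, card_empty]
    · exact Or.inr h
  unfold v
  split_ifs with h
  · set p := Nat.find h with hp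
    obtain ⟨hpp, hp4, hpn⟩ := Nat.find_spec h
    rw [← hp] at hpp hp4 hpn
    obtain ⟨e, he⟩ := hpn
    have hp0 : (0 : ℚ) < (p : ℚ) := by exact_mod_cast hpp.pos
    obtain ⟨t, ht⟩ : ∃ t, p + 1 = 3 * t := ⟨(p + 1) / 3, by omega⟩
    have hval : (1 + 1 / (p : ℚ)) * (n / 3) = ((t * e : ℕ) : ℚ) := by
      rw [he]
      have ht' : (p : ℚ) + 1 = 3 * t := by exact_mod_cast ht
      push_cast
      field_simp
      rw [ht']; ring
    rw [hval]
    have h7 : 3 * (t * e) = n + e := by
      calc 3 * (t * e) = (p + 1) * e := by rw [ht]; ring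
        _ = p * e + e := by ring
        _ = n + e := by rw [← he]
    apply le_antisymm
    · have h9 : tau3 n ≤ t * e := by
        rcases hup with h3 | ⟨d, e', B, hde, h3, h4, -⟩
        · rw [h3]; exact Nat.zero_le _
        · by_cases hd4 : d % 3 = 2
          · obtain ⟨q, hq1, hq2, hq3⟩ := exists_prime_factor hd4
            have hpq : p ≤ q := Nat.find_min' h ⟨hq1, hq2, hq3.trans ⟨e', hde.symm⟩⟩
            have hqd : q ≤ d := Nat.le_of_dvd (by omega) hq3
            have hpd : p ≤ d := hpq.trans hqd
            obtain ⟨t', ht'⟩ : ∃ t', d + 1 = 3 * t' := ⟨(d + 1) / 3, by omega⟩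
            rw [ht', Nat.mul_div_cancel_left _ (by norm_num : 0 < 3)] at h4
            have h6 : 3 * (t' * e') = n + e' := by
              calc 3 * (t' * e') = (d + 1) * e' := by rw [ht']; ring
                _ = d * e' + e' := by ring
                _ = n + e' := by rw [hde]
            have h8 : e' ≤ e := by
              by_contra hcon
              push Not at hcon
              have : p * e < d * e' := by
                calc p * e ≤ d * e := Nat.mul_le_mul_right _ hpd
                  _ < d * e' := Nat.mul_lt_mul_of_pos_left hcon (by omega)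
              omega
            omega
          · have h5 : 3 * ((d + 1) / 3 * e') ≤ n := by
              have h6 : (d + 1) / 3 * 3 ≤ d := by omega
              calc 3 * ((d + 1) / 3 * e') = ((d + 1) / 3 * 3) * e' := by ring
                _ ≤ d * e' := Nat.mul_le_mul_right _ h6
                _ = n := hde
            omega
      exact_mod_cast h9
    · have h9 := hlow _ (lower hn p e he.symm t (2 * t - 1) (by omega) (by omega) (by omega)
        (by omega) (by omega))
      have h10 : 2 * t - 1 + 1 - t = t := by omega
      rw [h10] at h9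
      exact_mod_cast h9
  · push Not at h
    have hnd : ∀ d, d ∣ n → d % 3 ≠ 2 := by
      intro d hd hc
      obtain ⟨q, hq1, hq2, hq3⟩ := exists_prime_factor hc
      exact h q hq1 hq2 (hq3.trans hd)
    have hodd : Odd n := by
      by_contra hcon
      rw [Nat.not_odd_iff_even] at hcon
      exact h 2 Nat.prime_two rfl hcon.two_dvd
    have h1 : tau3 n = (n - 1) / 3 := by
      apply le_antisymm
      · rcases hup with h3 | ⟨d, e, B, hde, h3, h4, h5⟩
        · rw [h3]; exact Nat.zero_le _
        · have hd := hnd d ⟨e, hde.symm⟩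
          have he0 : 0 < e := Nat.pos_of_ne_zero (by rintro rfl; omega)
          have h6 : 3 * ((d + 1) / 3 * e) ≤ n := by
            have h6 : (d + 1) / 3 * 3 ≤ d := by omega
            calc 3 * ((d + 1) / 3 * e) = ((d + 1) / 3 * 3) * e := by ring
              _ ≤ d * e := Nat.mul_le_mul_right _ h6
              _ = n := hde
          obtain ⟨c, hc⟩ := h5 hodd
          obtain ⟨m, hm⟩ := hodd
          have h7 : 3 * B ≤ n := by omega
          have h8 : 3 * B ≠ n := by omega
          omega
      · -- lower bound
        have hn3 := hnd n dvd_rfl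
        obtain ⟨t, ht⟩ : ∃ t, n = 3 * t ∨ n = 3 * t + 1 := ⟨n / 3, by omega⟩
        rcases ht with ht | ht
        · -- n = 3 t
          have ht0 : 0 < t := by omega
          by_cases ht1 : t = 1
          · omega
          · have h9 := hlow _ (lower hn n 1 (mul_one n) (t + 1) (2 * t - 1) (by omega) (by omega)
              (by omega) (by omega) (by omega))
            omega
        · by_cases ht0 : t = 0
          · omega
          · have h9 := hlow _ (lower hn n 1 (mul_one n) (t + 1) (2 * t) (by omega) (by omega)
              (by omega) (by omega) (by omega))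
            omega
    exact_mod_cast h1

end Pool.Agent.Results.MP_25b479_co.Equality
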